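import Pool.Agent.Helper85.QT.St1

/-!
# Project QT, module SB3 : invariance of the hull function
-/

set_option autoImplicit false

open MeasureTheory Matrix Set Topology
open scoped ENNReal ComplexConjugate

namespace Pool.Agent.Helper89.QT

open Pool.Agent.Helper85.QT Pool.Agent.Helper86.QA

private theorem inv10 (g : SL) : (g⁻¹) 1 0 = -(g 1 0) := by
  change ((g⁻¹ : SL) : Mat) 1 0 = -((g : Mat) 1 0)
  rw [Matrix.SpecialLinearGroup.coe_inv, Matrix.adjugate_fin_two]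
  simp

private theorem inv11 (g : SL) : (g⁻¹) 1 1 = g 0 0 := by
  change ((g⁻¹ : SL) : Mat) 1 1 = (g : Mat) 0 0
  rw [Matrix.SpecialLinearGroup.coe_inv, Matrix.adjugate_fin_two]
  simp

private theorem inv_mul_coe (g : SL) : ((g⁻¹ : SL) : Mat) * (g : Mat) = 1 := by
  rw [← Matrix.SpecialLinearGroup.coe_mul, inv_mul_cancel, Matrix.SpecialLinearGroup.coe_one]

private theorem back (g : SL) (H : Mat) :
    (((g⁻¹)⁻¹ : SL) : Mat)ᴴ * (((g⁻¹ : SL) : Mat)ᴴ * H * ((g⁻¹ : SL) : Mat)) *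
      (((g⁻¹)⁻¹ : SL) : Mat) = H := by
  rw [inv_inv]
  have h1 := inv_mul_coe g
  have h2 : (g : Mat)ᴴ * ((g⁻¹ : SL) : Mat)ᴴ = 1 := by
    rw [← Matrix.conjTranspose_mul, h1, Matrix.conjTranspose_one]
  calc (g : Mat)ᴴ * (((g⁻¹ : SL) : Mat)ᴴ * H * ((g⁻¹ : SL) : Mat)) * (g : Mat)
      = ((g : Mat)ᴴ * ((g⁻¹ : SL) : Mat)ᴴ) * H * (((g⁻¹ : SL) : Mat) * (g : Mat)) := by
        simp only [Matrix.mul_assoc]
    _ = H := by rw [h1, h2, Matrix.one_mul, Matrix.mul_one]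

section

variable {Γ : Type} [Group Γ] {ρ : Γ →* SL} {A B : Set ℂ}

private theorem rho_inv_mul (γ : Γ) : ρ γ⁻¹ * ρ γ = 1 := by
  rw [← map_mul, inv_mul_cancel, map_one]

private theorem rho_mul_inv (γ : Γ) : ρ γ * ρ γ⁻¹ = 1 := by
  rw [← map_mul, mul_inv_cancel, map_one]

private theorem LS_mb (hCHV : StCHV) (h : KD ρ A B) (γ : Γ) (ξ : ℂ) (hξ : ξ ∈ LS A B)
    (hd : ρ γ 1 0 * ξ + ρ γ 1 1 ≠ 0) : mb (ρ γ) ξ ∈ LS A B := by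
  obtain ⟨-, c2, -, c4, -⟩ := hCHV
  have h1 := (c2 (ρ γ⁻¹) (ρ γ) ξ hd).1
  rw [rho_inv_mul, c4] at h1
  intro h2
  apply hξ
  rcases h2 with h2 | h2
  · left
    rw [h1]
    exact (h.mpA γ⁻¹ _ h2).2
  · right
    rw [h1]
    exact (h.mpB γ⁻¹ _ h2).2

private theorem LS_pole (h : KD ρ A B) (γ : Γ) (hc : ρ γ 1 0 ≠ 0) :
    -(ρ γ 1 1 / ρ γ 1 0) ∈ LS A B := by
  have h0 : ρ γ 1 0 * -(ρ γ 1 1 / ρ γ 1 0) + ρ γ 1 1 = 0 := by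
    field_simp
    ring
  intro h2
  rcases h2 with h2 | h2
  · exact (h.mpA γ _ h2).1 h0
  · exact (h.mpB γ _ h2).1 h0

private theorem LS_pole' (h : KD ρ A B) (γ : Γ) (hc : ρ γ 1 0 ≠ 0) :
    ρ γ 0 0 / ρ γ 1 0 ∈ LS A B := by
  have h1 : (ρ γ⁻¹) 1 0 = -(ρ γ 1 0) := by rw [map_inv, inv10]
  have h2 : (ρ γ⁻¹) 1 1 = ρ γ 0 0 := by rw [map_inv, inv11]
  have h3 := LS_pole h γ⁻¹ (by rw [h1]; exact neg_ne_zero.2 hc)
  rw [h1, h2] at h3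
  have h4 : -(ρ γ 0 0 / -(ρ γ 1 0)) = ρ γ 0 0 / ρ γ 1 0 := by
    rw [div_neg, neg_neg]
  rwa [h4] at h3

private theorem AdF_tr (hCHV : StCHV) (hSB0 : StSB0) (h : KD ρ A B) (γ : Γ) (H : Mat)
    (hH : AdF A B H) :
    AdF A B (((((ρ γ)⁻¹ : SL) : Mat))ᴴ * H * (((ρ γ)⁻¹ : SL) : Mat)) := by
  obtain ⟨-, -, b3⟩ := hSB0
  obtain ⟨t1, t2, -, t4, t5, t6⟩ := b3 H (ρ γ) hH.1 hH.2.1
  refine ⟨t1, t2, ?_, ?_⟩
  · by_cases hc : ρ γ 1 0 = 0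
    · rw [t6 hc]
      exact mul_nonneg (sq_nonneg _) hH.2.2.1
    · rw [t5 hc]
      exact mul_nonneg (sq_nonneg _) (hH.2.2.2 _ (LS_pole h γ hc))
  · intro η hη
    have e1 : (ρ γ⁻¹) 1 0 = -(ρ γ 1 0) := by rw [map_inv, inv10]
    have e2 : (ρ γ⁻¹) 1 1 = ρ γ 0 0 := by rw [map_inv, inv11]
    by_cases hd : (ρ γ⁻¹) 1 0 * η + (ρ γ⁻¹) 1 1 = 0
    · rw [e1, e2] at hd
      have hdet : ρ γ 0 0 * ρ γ 1 1 - ρ γ 0 1 * ρ γ 1 0 = 1 := by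
        have := (ρ γ).det_coe
        rwa [Matrix.det_fin_two] at this
      have hc : ρ γ 1 0 ≠ 0 := by
        intro hc
        rw [hc, neg_zero, zero_mul, zero_add] at hd
        rw [hc, hd] at hdet
        simp at hdet
      have hη2 : η = ρ γ 0 0 / ρ γ 1 0 := by
        rw [eq_div_iff hc]
        linear_combination -hd
      obtain ⟨-, -, -, -, u5, -⟩ := b3 _ (ρ γ)⁻¹ t1 t2
      have h5 := u5 (by rw [inv10]; exact neg_ne_zero.2 hc)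
      rw [back, inv10, inv11, norm_neg, div_neg, neg_neg, ← hη2] at h5
      have h6 : 0 < ‖ρ γ 1 0‖ ^ 2 := pow_pos (norm_pos_iff.2 hc) 2
      have h7 : 0 ≤ ‖ρ γ 1 0‖ ^ 2 *
          qf (((((ρ γ)⁻¹ : SL) : Mat))ᴴ * H * (((ρ γ)⁻¹ : SL) : Mat)) η := by
        rw [← h5]
        exact hH.2.2.1
      exact nonneg_of_mul_nonneg_right h7 h6
    · have hξ := LS_mb hCHV h γ⁻¹ η hη hd
      obtain ⟨-, c2, -, c4, -⟩ := hCHV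
      obtain ⟨h1, h2⟩ := c2 (ρ γ) (ρ γ⁻¹) η hd
      rw [rho_mul_inv] at h1 h2
      rw [c4] at h1
      have h3 : ρ γ 1 0 * mb (ρ γ⁻¹) η + ρ γ 1 1 ≠ 0 := by
        intro h4
        rw [h4, zero_mul] at h2
        simp at h2
      have h5 := t4 _ h3
      rw [← h1] at h5
      have h6 : 0 < ‖ρ γ 1 0 * mb (ρ γ⁻¹) η + ρ γ 1 1‖ ^ 2 := pow_pos (norm_pos_iff.2 h3) 2
      have h7 : 0 ≤ qf (((((ρ γ)⁻¹ : SL) : Mat))ᴴ * H * (((ρ γ)⁻¹ : SL) : Mat)) η *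
          ‖ρ γ 1 0 * mb (ρ γ⁻¹) η + ρ γ 1 1‖ ^ 2 := by
        rw [h5]
        exact hH.2.2.2 _ hξ
      exact nonneg_of_mul_nonneg_left h7 h6

end

theorem hSB3 (hACT : Pool.Agent.Helper86.QA.StACT) (hCHV : Pool.Agent.Helper86.QA.StCHV)
    (hSB0 : Pool.Agent.Helper85.QT.StSB0) (hSB1 : Pool.Agent.Helper85.QT.StSB1) :
    Pool.Agent.Helper85.QT.StSB3 := by
  intro Γ _ ρ A B h
  refine ⟨?_, fun γ ξ hξ hd => LS_mb hCHV h γ ξ hξ hd, fun γ hc =>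
    ⟨LS_pole h γ hc, LS_pole' h γ hc⟩⟩
  obtain ⟨-, -, hex, -, -, hsup⟩ := hSB1 Γ ρ A B h
  have key : ∀ (γ : Γ), ∀ x ∈ up, sb A B x ≤ sb A B (ga (ρ γ) x) := by
    intro γ x hx
    have hgx : ga (ρ γ) x ∈ up := (hACT.1 (ρ γ) x hx).2.1
    obtain ⟨H0, hH0⟩ := hex
    unfold sb
    refine csSup_le ⟨hf H0 x, H0, hH0, rfl⟩ ?_
    rintro v ⟨H, hH, rfl⟩
    have h1 := AdF_tr hCHV hSB0 h γ H hH
    have h2 := (hSB0.2.2 H (ρ γ) hH.1 hH.2.1).2.2.1 x hx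
    rw [← h2]
    exact (hsup _ hgx).2.1 _ h1
  intro γ x hx
  refine le_antisymm ?_ (key γ x hx)
  have hgx : ga (ρ γ) x ∈ up := (hACT.1 (ρ γ) x hx).2.1
  have h1 := key γ⁻¹ _ hgx
  rwa [← hACT.2.1 _ _ x hx, rho_inv_mul, hACT.2.2.1 x hx] at h1

end Pool.Agent.Helper89.QT
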