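import Pool.Agent.Helper88.QT.St4

/-!
# Project QT (MP_d112a4_gt), module TPR: automorphisms of the disc
-/

set_option autoImplicit false

open MeasureTheory Matrix Set Topology Filter
open scoped ENNReal ComplexConjugate

namespace Pool.Agent.Helper89.QT

open Pool.Agent.Helper88.QT Pool.Agent.Helper85.QT Pool.Agent.Helper86.QA
open Pool.Agent.Helper35.PM

/-! ### Algebra of the disc -/

private theorem den_ne {p ζ : ℂ} (hp : ‖p‖ < 1) (hζ : ‖ζ‖ < 1) : 1 + conj p * ζ ≠ 0 := by
  intro h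
  have h1 : conj p * ζ = -1 := by linear_combination h
  have h2 : ‖conj p * ζ‖ = 1 := by rw [h1, norm_neg, norm_one]
  rw [norm_mul, RCLike.norm_conj] at h2
  have h3 : ‖p‖ * ‖ζ‖ < 1 := by
    have h0 := norm_nonneg p
    have h0' := norm_nonneg ζ
    nlinarith
  linarith

private theorem normsq_id (p ζ : ℂ) :
    Complex.normSq (1 + conj p * ζ) - Complex.normSq (ζ + p) =
      (1 - Complex.normSq p) * (1 - Complex.normSq ζ) := by
  simp only [Complex.normSq_apply, Complex.add_re, Complex.add_im, Complex.mul_re, Complex.mul_im,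
    Complex.one_re, Complex.one_im, Complex.conj_re, Complex.conj_im]
  ring

private theorem normsq_lt {p : ℂ} (hp : ‖p‖ < 1) : Complex.normSq p < 1 := by
  rw [Complex.normSq_eq_norm_sq]
  have h0 := norm_nonneg p
  nlinarith

private theorem Tp_mem {p ζ : ℂ} (hp : ‖p‖ < 1) (hζ : ‖ζ‖ < 1) : ‖Tp p ζ‖ < 1 := by
  have h := den_ne hp hζ
  unfold Tp
  rw [norm_div, div_lt_one (norm_pos_iff.mpr h)]
  have h1 := normsq_id p ζ
  have h2 : 0 < (1 - Complex.normSq p) * (1 - Complex.normSq ζ) :=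
    mul_pos (by linarith [normsq_lt hp]) (by linarith [normsq_lt hζ])
  rw [Complex.normSq_eq_norm_sq, Complex.normSq_eq_norm_sq] at h1
  have h3 : ‖ζ + p‖ ^ 2 < ‖1 + conj p * ζ‖ ^ 2 := by
    rw [Complex.normSq_eq_norm_sq, Complex.normSq_eq_norm_sq] at h1 h2
    linarith
  exact lt_of_pow_lt_pow_left₀ 2 (norm_nonneg _) h3

private theorem mem_b {z : ℂ} : z ∈ Metric.ball (0 : ℂ) 1 ↔ ‖z‖ < 1 := mem_ball_zero_iff

/-- real part of the Cayley transform -/
private theorem cay_re (w : ℂ) (hw : 1 + w ≠ 0) :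
    ((1 - w) / (1 + w)).re = (1 - Complex.normSq w) / Complex.normSq (1 + w) := by
  rw [Complex.div_re, ← add_div]
  congr 1
  simp only [Complex.normSq_apply, Complex.sub_re, Complex.sub_im, Complex.add_re, Complex.add_im,
    Complex.one_re, Complex.one_im]
  ring

private theorem one_add_ne {w : ℂ} (hw : ‖w‖ < 1) : 1 + w ≠ 0 := by
  intro h
  have h1 : w = -1 := by linear_combination h
  rw [h1, norm_neg, norm_one] at hw
  exact lt_irrefl _ hw

private theorem diff_Tp {p : ℂ} (hp : ‖p‖ < 1) :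
    DifferentiableOn ℂ (Tp p) (Metric.ball 0 1) := by
  intro z hz
  have h := den_ne hp (mem_b.1 hz)
  have h1 : DifferentiableAt ℂ (fun ζ : ℂ => ζ + p) z := by fun_prop
  have h2 : DifferentiableAt ℂ (fun ζ : ℂ => 1 + conj p * ζ) z := by fun_prop
  exact (h1.div h2 h).differentiableWithinAt

private theorem frac1 (x d t : ℂ) (hd : d ≠ 0) : x / d + t = (x + t * d) / d := by
  field_simp

private theorem frac2 (x d s : ℂ) (hd : d ≠ 0) : 1 + s * (x / d) = (d + s * x) / d := by
  field_simp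

private theorem frac3 (x d : ℂ) (hd : d ≠ 0) : 1 + x / d = (d + x) / d := by
  field_simp

private theorem frac4 (A N D ζ : ℂ) (hN : N ≠ 0) (hD : D ≠ 0) :
    1 + A / N * (N / D * ζ) = (D + A * ζ) / D := by
  field_simp

private theorem frac5 (N D x ζ : ℂ) : N / D * ζ + x / D = (N * ζ + x) / D := by
  ring

private theorem comp_rot {t p : ℂ} (ht : ‖t‖ < 1) (hp : ‖p‖ < 1) : ∃ ω : ℂ, ‖ω‖ = 1 ∧
    ∀ ζ ∈ Metric.ball (0 : ℂ) 1, Tp t (Tp p ζ) = Tp (Tp t p) (ω * ζ) := by
  have hD : 1 + conj t * p ≠ 0 := den_ne ht hp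
  have hD' : 1 + t * conj p ≠ 0 := by
    have := (map_ne_zero (starRingEnd ℂ)).mpr hD
    simpa only [map_add, map_one, map_mul, Complex.conj_conj] using this
  refine ⟨(1 + t * conj p) / (1 + conj t * p), ?_, ?_⟩
  · rw [norm_div]
    have : ‖1 + t * conj p‖ = ‖1 + conj t * p‖ := by
      rw [← RCLike.norm_conj]
      simp only [map_add, map_one, map_mul, Complex.conj_conj]
    rw [this, div_self (norm_ne_zero_iff.mpr hD)]
  · intro ζ hζ
    have hζ' := mem_b.1 hζ
    have h1 : 1 + conj p * ζ ≠ 0 := den_ne hp hζ'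
    have h2 : 1 + conj t * Tp p ζ ≠ 0 := den_ne ht (Tp_mem hp hζ')
    have hct : conj (Tp t p) = (conj p + conj t) / (1 + t * conj p) := by
      unfold Tp
      simp only [map_div₀, map_add, map_one, map_mul, Complex.conj_conj]
    have h4 : 1 + conj (Tp t p) * ((1 + t * conj p) / (1 + conj t * p) * ζ) =
        ((1 + conj p * ζ) + conj t * (ζ + p)) / (1 + conj t * p) := by
      rw [hct, frac4 _ _ _ _ hD' hD]
      congr 1
      ring
    have h5 : (1 + t * conj p) / (1 + conj t * p) * ζ + Tp t p =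
        ((ζ + p) + t * (1 + conj p * ζ)) / (1 + conj t * p) := by
      unfold Tp
      rw [frac5]
      congr 1
      ring
    have h6 : Tp (Tp t p) ((1 + t * conj p) / (1 + conj t * p) * ζ) =
        ((ζ + p) + t * (1 + conj p * ζ)) / ((1 + conj p * ζ) + conj t * (ζ + p)) := by
      change ((1 + t * conj p) / (1 + conj t * p) * ζ + Tp t p) /
        (1 + conj (Tp t p) * ((1 + t * conj p) / (1 + conj t * p) * ζ)) = _
      rw [h4, h5, div_div_div_cancel_right₀ hD]
    rw [h6]
    change (Tp p ζ + t) / (1 + conj t * Tp p ζ) = _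
    unfold Tp
    rw [frac1 _ _ _ h1, frac2 _ _ _ h1, div_div_div_cancel_right₀ h1]

/-! ### Hyperbolic tangent -/

private theorem tanh_frac (x : ℝ) : (1 - Real.tanh x) / (1 + Real.tanh x) = Real.exp (-(2 * x)) := by
  have hc := Real.cosh_pos x
  rw [Real.tanh_eq_sinh_div_cosh]
  have h1 : 1 - Real.sinh x / Real.cosh x = Real.exp (-x) / Real.cosh x := by
    rw [← Real.cosh_sub_sinh]; field_simp
  have h2 : 1 + Real.sinh x / Real.cosh x = Real.exp x / Real.cosh x := by
    rw [← Real.cosh_add_sinh]; field_simp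
  rw [h1, h2, div_div_div_cancel_right₀ hc.ne', ← Real.exp_sub]
  congr 1; ring

private theorem tanh_nn {x : ℝ} (hx : 0 ≤ x) : 0 ≤ Real.tanh x := by
  rw [Real.tanh_eq_sinh_div_cosh]
  exact div_nonneg (Real.sinh_nonneg_iff.mpr hx) (Real.cosh_pos x).le

private theorem tanh_lt (x : ℝ) : Real.tanh x < 1 := by
  rw [Real.tanh_eq_sinh_div_cosh, div_lt_one (Real.cosh_pos x)]
  have := Real.cosh_sub_sinh x
  have := Real.exp_pos (-x)
  linarith

private theorem zt_mem {τ : ℝ} (hτ : 0 ≤ τ) : ‖zt τ‖ < 1 := by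
  unfold zt
  rw [Complex.norm_real, Real.norm_eq_abs, abs_of_nonneg (tanh_nn (by linarith))]
  exact tanh_lt _

private theorem hf_zt (τ : ℝ) : ((1 - zt τ) / (1 + zt τ)).re = Real.exp (-τ) := by
  unfold zt
  have h := tanh_frac (τ / 2)
  rw [show -(2 * (τ / 2)) = -τ by ring] at h
  rw [← h]
  have : (1 - ((Real.tanh (τ / 2) : ℝ) : ℂ)) / (1 + ((Real.tanh (τ / 2) : ℝ) : ℂ)) =
      (((1 - Real.tanh (τ / 2)) / (1 + Real.tanh (τ / 2)) : ℝ) : ℂ) := by
    push_cast; rfl
  rw [this, Complex.ofReal_re]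

/-- the Harnack inequality for the Cayley transform -/
private theorem harnack {t : ℂ} (ht : ‖t‖ < 1) {p : ℂ} (hp : ‖p‖ ≤ Real.tanh 1) :
    Real.exp (-2) * ((1 - t) / (1 + t)).re ≤ ((1 - Tp t p) / (1 + Tp t p)).re := by
  have hp1 : ‖p‖ < 1 := lt_of_le_of_lt hp (tanh_lt 1)
  have hD : 1 + conj t * p ≠ 0 := den_ne ht hp1
  have hw := Tp_mem ht hp1
  have hw0 := one_add_ne hw
  have ht0 := one_add_ne ht
  rw [cay_re _ hw0, cay_re _ ht0]
  -- the norm of one plus w
  have hD2 : 0 < Complex.normSq (1 + conj t * p) := Complex.normSq_pos.mpr hD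
  have hnum : 1 - Complex.normSq (Tp t p) =
      (1 - Complex.normSq t) * (1 - Complex.normSq p) / Complex.normSq (1 + conj t * p) := by
    unfold Tp
    rw [Complex.normSq_div, ← normsq_id t p, one_sub_div hD2.ne']
  have hone : 1 + Tp t p = ((1 + t) + p * (1 + conj t)) / (1 + conj t * p) := by
    unfold Tp
    rw [frac3 _ _ hD]
    congr 1
    ring
  have hden : Complex.normSq (1 + Tp t p) =
      Complex.normSq ((1 + t) + p * (1 + conj t)) / Complex.normSq (1 + conj t * p) := by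
    rw [hone, Complex.normSq_div]
  have hX : (1 + t) + p * (1 + conj t) ≠ 0 := by
    intro h
    rw [hone, h, zero_div] at hw0
    exact hw0 rfl
  have hX2 : 0 < Complex.normSq ((1 + t) + p * (1 + conj t)) := Complex.normSq_pos.mpr hX
  rw [hnum, hden, div_div_div_cancel_right₀ hD2.ne']
  have hT : 0 < 1 - Complex.normSq t := by linarith [normsq_lt ht]
  have hT2 : 0 < Complex.normSq (1 + t) := Complex.normSq_pos.mpr ht0
  -- upper bound for the denominator
  have hub : Complex.normSq ((1 + t) + p * (1 + conj t)) ≤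
      Complex.normSq (1 + t) * (1 + ‖p‖) ^ 2 := by
    rw [Complex.normSq_eq_norm_sq, Complex.normSq_eq_norm_sq, ← mul_pow]
    refine pow_le_pow_left₀ (norm_nonneg _) ?_ 2
    refine (norm_add_le _ _).trans ?_
    rw [norm_mul]
    have : ‖1 + conj t‖ = ‖1 + t‖ := by
      rw [← RCLike.norm_conj]
      simp only [map_add, map_one, Complex.conj_conj]
    rw [this]
    nlinarith [norm_nonneg (1 + t), norm_nonneg p]
  -- the exponential
  have hexp : Real.exp (-2) ≤ (1 - Complex.normSq p) / (1 + ‖p‖) ^ 2 := by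
    have h1 := tanh_frac 1
    rw [show -(2 * (1 : ℝ)) = -2 by ring] at h1
    rw [← h1, Complex.normSq_eq_norm_sq]
    have hp0 := norm_nonneg p
    have hth := tanh_nn (x := 1) (by norm_num)
    have h2 : (1 - ‖p‖ ^ 2) / (1 + ‖p‖) ^ 2 = (1 - ‖p‖) / (1 + ‖p‖) := by
      have : (1 + ‖p‖) ≠ 0 := by positivity
      field_simp
      ring
    rw [h2, div_le_div_iff₀ (by positivity) (by positivity)]
    nlinarith
  have hstep : Real.exp (-2) * ((1 - Complex.normSq t) / Complex.normSq (1 + t)) ≤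
      (1 - Complex.normSq p) / (1 + ‖p‖) ^ 2 *
        ((1 - Complex.normSq t) / Complex.normSq (1 + t)) :=
    mul_le_mul_of_nonneg_right hexp (by positivity)
  refine hstep.trans ?_
  have hp2 : 0 < 1 - Complex.normSq p := by linarith [normsq_lt hp1]
  have h3 : (1 - Complex.normSq p) / (1 + ‖p‖) ^ 2 *
        ((1 - Complex.normSq t) / Complex.normSq (1 + t)) =
      ((1 - Complex.normSq t) * (1 - Complex.normSq p)) /
        (Complex.normSq (1 + t) * (1 + ‖p‖) ^ 2) := by
    have : (1 + ‖p‖) ≠ 0 := by positivity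
    field_simp
  rw [h3]
  exact div_le_div_of_nonneg_left (by positivity) hX2 hub

theorem hTPR : Pool.Agent.Helper88.QT.StTPR := by
  refine ⟨?_, ?_, ?_, ?_, ?_, ?_⟩
  · intro p hp
    have hp' := mem_b.1 hp
    refine ⟨fun ζ hζ => mem_b.2 (Tp_mem hp' (mem_b.1 hζ)), ?_, diff_Tp hp'⟩
    unfold Tp
    simp
  · intro t ht p hp
    exact comp_rot (mem_b.1 ht) (mem_b.1 hp)
  · intro t ht
    have ht' := mem_b.1 ht
    refine ⟨?_, fun p hp => ⟨mem_b.2 (lt_of_le_of_lt hp (tanh_lt 1)), harnack ht' hp⟩⟩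
    rw [cay_re _ (one_add_ne ht')]
    exact div_pos (by linarith [normsq_lt ht']) (Complex.normSq_pos.mpr (one_add_ne ht'))
  · intro τ hτ
    exact ⟨mem_b.2 (zt_mem hτ), hf_zt τ⟩
  · intro Γ _ f hf p hp
    have hp' := mem_b.1 hp
    refine ⟨fun γ i j => ?_, fun z hz => ?_⟩
    · exact (hf.1 γ i j).comp (diff_Tp hp') (fun z hz => mem_b.2 (Tp_mem hp' (mem_b.1 hz)))
    · exact hf.2 _ (mem_b.2 (Tp_mem hp' (mem_b.1 hz)))
  · intro t ht0 ht1
    have h1 : 0 < 1 + t := by linarith
    have h2 : 0 < 1 - t := by linarith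
    refine ⟨Real.log ((1 + t) / (1 - t)), Real.log_nonneg ?_, ?_⟩
    · rw [le_div_iff₀ h2]; linarith
    · unfold zt
      congr 1
      set L := Real.log ((1 + t) / (1 - t)) with hL
      have h3 := tanh_frac (L / 2)
      rw [show -(2 * (L / 2)) = -L by ring, hL, Real.exp_neg, Real.exp_log (div_pos h1 h2)] at h3
      have h4 : 0 < 1 + Real.tanh (L / 2) := by
        have := tanh_nn (x := L / 2) (by
          have : 0 ≤ L := Real.log_nonneg (by rw [le_div_iff₀ h2]; linarith)
          linarith)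
        linarith
      rw [← hL, inv_div, div_eq_div_iff h4.ne' h1.ne'] at h3
      linarith

end Pool.Agent.Helper89.QT
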